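import Mathlib
import Pool.Agent.Helper226.LociPts

set_option autoImplicit false

open scoped TensorProduct

universe u

namespace Pool.Agent.X320

open Pool.Agent.Helper226

section Sum

variable {k : Type u} [Field k] {B : Type u} [CommRing B] [Algebra k B] {r₁ r₂ r : ℕ}
variable {b₁ : Fin r₁ → B} {b₂ : Fin r₂ → B} (e : Fin r ≃ Fin r₁ ⊕ Fin r₂)
variable {A : Type u} [CommRing A] [Algebra k A]

/-- the joint coordinates of two chart data -/
noncomputable def jl (c₁ : Chart k b₁ A) (c₂ : Chart k b₂ A) : B →ₗ[k] (Fin r → A) :=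
  LinearMap.pi fun j => Sum.elim (fun i => LinearMap.proj i ∘ₗ c₁.q)
    (fun i => LinearMap.proj i ∘ₗ c₂.q) (e j)

lemma jl_apply (c₁ : Chart k b₁ A) (c₂ : Chart k b₂ A) (x : B) (j : Fin r) :
    jl e c₁ c₂ x j = Sum.elim (c₁.q x) (c₂.q x) (e j) := by
  unfold jl
  rw [LinearMap.pi_apply]
  cases e j <;> rfl

lemma jl_eq_zero_iff (c₁ : Chart k b₁ A) (c₂ : Chart k b₂ A) (x : B) :
    jl e c₁ c₂ x = 0 ↔ c₁.q x = 0 ∧ c₂.q x = 0 := by
  constructor
  · intro h
    constructor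
    · ext i
      have := congrFun h (e.symm (Sum.inl i))
      rwa [jl_apply, Equiv.apply_symm_apply] at this
    · ext i
      have := congrFun h (e.symm (Sum.inr i))
      rwa [jl_apply, Equiv.apply_symm_apply] at this
  · rintro ⟨h1, h2⟩
    ext j
    rw [jl_apply]
    cases e j with
    | inl i => simp [h1]
    | inr i => simp [h2]

/-- the joint matrix -/
noncomputable def jm (c₁ : Chart k b₁ A) (c₂ : Chart k b₂ A) (b : Fin r → B) :
    Matrix (Fin r) (Fin r) A := Matrix.of fun i j => jl e c₁ c₂ (b i) j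

/-- the joint `A`-linear map -/
noncomputable def jL (c₁ : Chart k b₁ A) (c₂ : Chart k b₂ A) : A ⊗[k] B →ₗ[A] (Fin r → A) :=
  LinearMap.pi fun j => Sum.elim (fun i => LinearMap.proj i ∘ₗ c₁.L)
    (fun i => LinearMap.proj i ∘ₗ c₂.L) (e j)

lemma jL_apply (c₁ : Chart k b₁ A) (c₂ : Chart k b₂ A) (x : A ⊗[k] B) (j : Fin r) :
    jL e c₁ c₂ x j = Sum.elim (c₁.L x) (c₂.L x) (e j) := by
  unfold jL
  rw [LinearMap.pi_apply]
  cases e j <;> rfl

lemma jL_tmul (c₁ : Chart k b₁ A) (c₂ : Chart k b₂ A) (x : B) :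
    jL e c₁ c₂ (1 ⊗ₜ x) = jl e c₁ c₂ x := by
  ext j
  rw [jL_apply, jl_apply]
  simp

lemma jL_eq_zero_iff (c₁ : Chart k b₁ A) (c₂ : Chart k b₂ A) (x : A ⊗[k] B) :
    jL e c₁ c₂ x = 0 ↔ c₁.L x = 0 ∧ c₂.L x = 0 := by
  constructor
  · intro h
    constructor
    · ext i
      have := congrFun h (e.symm (Sum.inl i))
      rwa [jL_apply, Equiv.apply_symm_apply] at this
    · ext i
      have := congrFun h (e.symm (Sum.inr i))
      rwa [jL_apply, Equiv.apply_symm_apply] at this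
  · rintro ⟨h1, h2⟩
    ext j
    rw [jL_apply]
    cases e j with
    | inl i => simp [h1]
    | inr i => simp [h2]

lemma exists_sum (c₁ : Chart k b₁ A) (c₂ : Chart k b₂ A) (b : Fin r → B)
    (h : IsUnit (jm e c₁ c₂ b).det) :
    ∃ c : Chart k b A, ∀ x, Matrix.vecMul (c.q x) (jm e c₁ c₂ b) = jl e c₁ c₂ x := by
  set M := jm e c₁ c₂ b with hM
  have hMi : M * M⁻¹ = 1 := Matrix.mul_nonsing_inv _ h
  have hMi' : M⁻¹ * M = 1 := Matrix.nonsing_inv_mul _ h
  let L' : A ⊗[k] B →ₗ[A] (Fin r → A) := (Matrix.vecMulLinear M⁻¹) ∘ₗ jL e c₁ c₂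
  have hL0 : ∀ x, L' x = 0 ↔ jL e c₁ c₂ x = 0 := by
    intro x
    simp only [L', LinearMap.coe_comp, Function.comp_apply, Matrix.vecMulLinear_apply]
    constructor
    · intro h0
      have := congrArg (fun v => Matrix.vecMul v M) h0
      simpa [Matrix.vecMul_vecMul, hMi'] using this
    · intro h0; simp [h0]
  have hb : ∀ i, L' (1 ⊗ₜ b i) = Pi.single i 1 := by
    intro i
    simp only [L', LinearMap.coe_comp, Function.comp_apply, Matrix.vecMulLinear_apply]
    have h1 : jL e c₁ c₂ (1 ⊗ₜ b i) = Matrix.vecMul (Pi.single i 1) M := by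
      rw [jL_tmul]
      ext j
      simp [hM, jm]
    rw [h1, Matrix.vecMul_vecMul, hMi, Matrix.vecMul_one]
  have hI : ∀ x y, L' x = 0 → L' (x * y) = 0 := by
    intro x y hx
    rw [hL0, jL_eq_zero_iff] at hx ⊢
    rw [mul_comm]
    exact ⟨c₁.ideal.mul_mem_left y hx.1, c₂.ideal.mul_mem_left y hx.2⟩
  refine ⟨Chart.mk' b L' hb hI, ?_⟩
  intro x
  have h2 : (Chart.mk' b L' hb hI).q x = L' (1 ⊗ₜ x) := by
    rw [← Chart.mk'_L L' hb hI, Chart.L_tmul, one_smul]
  rw [h2]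
  simp only [L', LinearMap.coe_comp, Function.comp_apply, Matrix.vecMulLinear_apply]
  rw [Matrix.vecMul_vecMul, hMi', Matrix.vecMul_one, jL_tmul]

variable {A' : Type u} [CommRing A'] [Algebra k A']

lemma jl_map (c₁ : Chart k b₁ A) (c₂ : Chart k b₂ A) (φ : A →ₐ[k] A') (x : B) (j : Fin r) :
    jl e (c₁.map φ) (c₂.map φ) x j = φ (jl e c₁ c₂ x j) := by
  rw [jl_apply, jl_apply]
  cases e j <;> simp

lemma jm_map (c₁ : Chart k b₁ A) (c₂ : Chart k b₂ A) (φ : A →ₐ[k] A') (b : Fin r → B) :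
    jm e (c₁.map φ) (c₂.map φ) b = (jm e c₁ c₂ b).map φ := by
  ext i j
  simp [jm, jl_map]

lemma det_jm_map (c₁ : Chart k b₁ A) (c₂ : Chart k b₂ A) (φ : A →ₐ[k] A') (b : Fin r → B) :
    (jm e (c₁.map φ) (c₂.map φ) b).det = φ (jm e c₁ c₂ b).det := by
  rw [jm_map, AlgHom.map_det]
  rfl

/-- two chart data with the joint coordinates are equal -/
lemma sum_unique {c₁ : Chart k b₁ A} {c₂ : Chart k b₂ A} {b : Fin r → B}
    (h : IsUnit (jm e c₁ c₂ b).det) {c c' : Chart k b A}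
    (hc : ∀ x, Matrix.vecMul (c.q x) (jm e c₁ c₂ b) = jl e c₁ c₂ x)
    (hc' : ∀ x, Matrix.vecMul (c'.q x) (jm e c₁ c₂ b) = jl e c₁ c₂ x) : c = c' := by
  ext x : 1
  have h1 := (hc x).trans (hc' x).symm
  have h2 := congrArg (fun v => Matrix.vecMul v (jm e c₁ c₂ b)⁻¹) h1
  simpa [Matrix.vecMul_vecMul, Matrix.mul_nonsing_inv _ h] using h2

lemma sum_map {c₁ : Chart k b₁ A} {c₂ : Chart k b₂ A} {b : Fin r → B} {c : Chart k b A}
    (hc : ∀ x, Matrix.vecMul (c.q x) (jm e c₁ c₂ b) = jl e c₁ c₂ x) (φ : A →ₐ[k] A') (x : B) :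
    Matrix.vecMul ((c.map φ).q x) (jm e (c₁.map φ) (c₂.map φ) b) =
      jl e (c₁.map φ) (c₂.map φ) x := by
  ext j
  rw [jl_map, ← hc x, jm_map]
  simp [Matrix.vecMul, dotProduct]

/-- Let `c₁`, `c₂` be families of chart data over `A` and `f` a function on the chart of `b`. There
is an element of `A` whose non-vanishing at a point means that the joint chart datum at that point
exists and `f` does not vanish there. -/
lemma exists_pullback (c₁ : Chart k b₁ A) (c₂ : Chart k b₂ A) (b : Fin r → B) (f : AR k b) :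
    ∃ g : A, ∀ φ : A →ₐ[k] k,
      (φ g ≠ 0 ↔ (jm e (c₁.map φ) (c₂.map φ) b).det ≠ 0 ∧
        ∀ c : Chart k b k, (∀ x, Matrix.vecMul (c.q x) (jm e (c₁.map φ) (c₂.map φ) b) =
          jl e (c₁.map φ) (c₂.map φ) x) → clf c f ≠ 0) := by
  set δ := (jm e c₁ c₂ b).det with hδ
  let Aδ := Localization.Away δ
  let ι : A →ₐ[k] Aδ := IsScalarTower.toAlgHom k A Aδ
  have hu : IsUnit (jm e (c₁.map ι) (c₂.map ι) b).det := by
    rw [det_jm_map]
    exact IsLocalization.Away.algebraMap_isUnit δ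
  obtain ⟨c, hc⟩ := exists_sum e (c₁.map ι) (c₂.map ι) b hu
  obtain ⟨⟨g, ⟨_, n, rfl⟩⟩, hg⟩ := IsLocalization.surj (Submonoid.powers δ) (clf c f)
  refine ⟨g * δ, fun φ => ?_⟩
  rw [det_jm_map, ← hδ, map_mul, mul_ne_zero_iff]
  constructor
  · rintro ⟨h1, h2⟩
    refine ⟨h2, fun c' hc' => ?_⟩
    have hφu : IsUnit (φ δ) := IsUnit.mk0 _ h2
    let ψ : Aδ →ₐ[k] k := IsLocalization.liftAlgHom (M := Submonoid.powers δ) (f := φ) (by
      rintro ⟨_, m, rfl⟩
      simpa using hφu.pow m)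
    have hψ : ψ.comp ι = φ := by
      ext x
      simp [ψ, ι]
    have h3 : c' = c.map ψ := by
      refine sum_unique e (c₁ := c₁.map φ) (c₂ := c₂.map φ) ?_ hc' ?_
      · rw [det_jm_map]
        exact hφu
      · intro x
        have := sum_map e hc ψ x
        rwa [Chart.map_map, Chart.map_map, hψ] at this
    rw [h3, clf_map, AlgHom.comp_apply]
    intro h0
    apply h1
    have := congrArg ψ hg
    rw [map_mul, h0, zero_mul] at this
    have h4 : ψ (algebraMap A Aδ g) = φ g := by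
      rw [← hψ]; rfl
    rw [← h4, ← this]
  · rintro ⟨h2, h⟩
    refine ⟨?_, h2⟩
    have hφu : IsUnit (φ δ) := IsUnit.mk0 _ h2
    let ψ : Aδ →ₐ[k] k := IsLocalization.liftAlgHom (M := Submonoid.powers δ) (f := φ) (by
      rintro ⟨_, m, rfl⟩
      simpa using hφu.pow m)
    have hψ : ψ.comp ι = φ := by
      ext x
      simp [ψ, ι]
    have h5 := h (c.map ψ) (by
      intro x
      have := sum_map e hc ψ x
      rwa [Chart.map_map, Chart.map_map, hψ] at this)
    rw [clf_map, AlgHom.comp_apply] at h5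
    have := congrArg ψ hg
    have h4 : ψ (algebraMap A Aδ g) = φ g := by
      rw [← hψ]; rfl
    rw [map_mul] at this
    simp only at this
    rw [h4] at this
    rw [← this]
    refine mul_ne_zero h5 ?_
    have h6 : ψ (algebraMap A Aδ (δ ^ n)) = φ (δ ^ n) := by
      rw [← hψ]; rfl
    rw [h6, map_pow]
    exact pow_ne_zero _ h2

end Sum

end Pool.Agent.X320
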