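import Mathlib
import Pool.Agent.X320.Sum

set_option autoImplicit false

open scoped TensorProduct

universe u

namespace Pool.Agent.X320

open Pool.Agent.Helper226

section Ker

variable {k : Type u} [Field k] {B : Type u} [CommRing B] [Algebra k B] {r₁ r₂ r : ℕ}
variable {b₁ : Fin r₁ → B} {b₂ : Fin r₂ → B} (e : Fin r ≃ Fin r₁ ⊕ Fin r₂) {b : Fin r → B}

lemma ker_joint {c₁ : Chart k b₁ k} {c₂ : Chart k b₂ k} {c : Chart k b k}
    (hd : (jm e c₁ c₂ b).det ≠ 0)
    (hc : ∀ x, Matrix.vecMul (c.q x) (jm e c₁ c₂ b) = jl e c₁ c₂ x) :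
    c.ker = c₁.ker ⊓ c₂.ker := by
  ext x
  rw [Ideal.mem_inf, Chart.mem_ker, Chart.mem_ker, Chart.mem_ker, ← jl_eq_zero_iff e, ← hc x]
  constructor
  · intro h; rw [h, Matrix.zero_vecMul]
  · intro h
    exact Matrix.eq_zero_of_vecMul_eq_zero hd h

lemma coprime_joint {c₁ : Chart k b₁ k} {c₂ : Chart k b₂ k} {b : Fin r → B}
    (hd : (jm e c₁ c₂ b).det ≠ 0) : c₁.ker ⊔ c₂.ker = ⊤ := by
  have hu : IsUnit (jm e c₁ c₂ b).det := IsUnit.mk0 _ hd
  have hsurj : ∀ v : Fin r → k, ∃ x : B, jl e c₁ c₂ x = v := by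
    intro v
    refine ⟨∑ i, (Matrix.vecMul v (jm e c₁ c₂ b)⁻¹) i • b i, ?_⟩
    rw [map_sum]
    have h1 : ∀ w : Fin r → k, ∑ i, jl e c₁ c₂ (w i • b i) = Matrix.vecMul w (jm e c₁ c₂ b) := by
      intro w
      ext j
      simp [Matrix.vecMul, dotProduct, jm]
    rw [h1, Matrix.vecMul_vecMul, Matrix.nonsing_inv_mul _ hu, Matrix.vecMul_one]
  obtain ⟨x, hx⟩ := hsurj (fun j => Sum.elim 0 (c₂.q 1) (e j))
  have h1 : x ∈ c₁.ker := by
    rw [Chart.mem_ker]
    ext i
    have := congrFun hx (e.symm (Sum.inl i))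
    rwa [jl_apply, Equiv.apply_symm_apply] at this
  have h2 : 1 - x ∈ c₂.ker := by
    rw [Chart.mem_ker, map_sub, sub_eq_zero]
    ext i
    have := congrFun hx (e.symm (Sum.inr i))
    rw [jl_apply, Equiv.apply_symm_apply] at this
    exact this.symm
  rw [Ideal.eq_top_iff_one, ← add_sub_cancel x (1 : B)]
  exact Ideal.add_mem _ (Ideal.mem_sup_left h1) (Ideal.mem_sup_right h2)

/-- an ideal of finite colength has a chart datum -/
lemma exists_chart_of_ideal (I : Ideal B) [FiniteDimensional k (B ⧸ I)] :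
    ∃ (b : Fin (Module.finrank k (B ⧸ I)) → B) (c : Chart k b k), c.ker = I := by
  let bs := Module.finBasis k (B ⧸ I)
  choose b hb using fun i => Ideal.Quotient.mk_surjective (bs i)
  let q : B →ₗ[k] (Fin (Module.finrank k (B ⧸ I)) → k) :=
    bs.equivFun.toLinearMap ∘ₗ (Ideal.Quotient.mkₐ k I).toLinearMap
  have hq : ∀ x, q x = bs.equivFun (Ideal.Quotient.mk I x) := fun x => rfl
  refine ⟨b, ⟨q, ?_, ?_⟩, ?_⟩
  · intro i
    rw [hq, hb]
    ext j
    simp [Pi.single_apply, eq_comm]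
  · intro x y
    have h1 : Ideal.Quotient.mk I x = ∑ j, q x j • Ideal.Quotient.mk I (b j) := by
      conv_lhs => rw [← bs.sum_equivFun (Ideal.Quotient.mk I x)]
      simp only [hq, hb]
    rw [hq, map_mul, h1, Finset.sum_mul, map_sum]
    refine Finset.sum_congr rfl fun j _ => ?_
    rw [smul_mul_assoc, map_smul, ← map_mul, ← hq]
  · ext x
    rw [Chart.mem_ker]
    change q x = 0 ↔ x ∈ I
    rw [hq, LinearEquiv.map_eq_zero_iff, Ideal.Quotient.eq_zero_iff_mem]

lemma finiteDimensional_ker (c : Chart k b k) : FiniteDimensional k (B ⧸ c.ker) := by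
  let φ : (B ⧸ c.ker) →ₗ[k] (Fin r → k) :=
    (c.ker.restrictScalars k).liftQ c.q (by
      intro x hx
      exact (Chart.mem_ker c x).1 hx)
  have hinj : Function.Injective φ := by
    rw [← LinearMap.ker_eq_bot, LinearMap.ker_eq_bot']
    intro y hy
    obtain ⟨x, rfl⟩ := Ideal.Quotient.mk_surjective y
    exact Ideal.Quotient.eq_zero_iff_mem.2 ((Chart.mem_ker c x).2 hy)
  exact FiniteDimensional.of_injective φ hinj

lemma finrank_ker (c : Chart k b k) : Module.finrank k (B ⧸ c.ker) = r := by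
  let φ : (B ⧸ c.ker) →ₗ[k] (Fin r → k) :=
    (c.ker.restrictScalars k).liftQ c.q (by
      intro x hx
      exact (Chart.mem_ker c x).1 hx)
  have hinj : Function.Injective φ := by
    rw [← LinearMap.ker_eq_bot, LinearMap.ker_eq_bot']
    intro y hy
    obtain ⟨x, rfl⟩ := Ideal.Quotient.mk_surjective y
    exact Ideal.Quotient.eq_zero_iff_mem.2 ((Chart.mem_ker c x).2 hy)
  have hsurj : Function.Surjective φ := by
    intro v
    refine ⟨Ideal.Quotient.mk _ (∑ i, v i • b i), ?_⟩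
    have : φ (Ideal.Quotient.mk _ (∑ i, v i • b i)) = c.q (∑ i, v i • b i) := rfl
    rw [this, map_sum]
    ext j
    simp [c.q_b, Pi.single_apply]
  rw [LinearEquiv.finrank_eq (LinearEquiv.ofBijective φ ⟨hinj, hsurj⟩)]
  simp

/-- given a decomposition of the ideal of a chart datum into coprime ideals, the chart datum is
the joint one -/
lemma exists_joint {I₁ I₂ : Ideal B} (c : Chart k b k) (hI : I₁ ⊓ I₂ = c.ker)
    (hco : I₁ ⊔ I₂ = ⊤) :
    ∃ (r₁ r₂ : ℕ) (e : Fin r ≃ Fin r₁ ⊕ Fin r₂) (b₁ : Fin r₁ → B) (b₂ : Fin r₂ → B)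
      (c₁ : Chart k b₁ k) (c₂ : Chart k b₂ k), c₁.ker = I₁ ∧ c₂.ker = I₂ ∧ r₁ + r₂ = r ∧
      (jm e c₁ c₂ b).det ≠ 0 ∧
      ∀ x, Matrix.vecMul (c.q x) (jm e c₁ c₂ b) = jl e c₁ c₂ x := by
  have hf := finiteDimensional_ker c
  have hle1 : c.ker ≤ I₁ := hI ▸ inf_le_left
  have hle2 : c.ker ≤ I₂ := hI ▸ inf_le_right
  have hf1 : FiniteDimensional k (B ⧸ I₁) :=
    Module.Finite.of_surjective (Ideal.Quotient.factorₐ k hle1).toLinearMap
      (Ideal.Quotient.factor_surjective hle1)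
  have hf2 : FiniteDimensional k (B ⧸ I₂) :=
    Module.Finite.of_surjective (Ideal.Quotient.factorₐ k hle2).toLinearMap
      (Ideal.Quotient.factor_surjective hle2)
  obtain ⟨r₁, b₁, c₁, h1, hr₁⟩ : ∃ (r₁ : ℕ) (b₁ : Fin r₁ → B) (c₁ : Chart k b₁ k),
      c₁.ker = I₁ ∧ r₁ = Module.finrank k (B ⧸ I₁) := by
    obtain ⟨b₁, c₁, h1⟩ := exists_chart_of_ideal (k := k) I₁
    exact ⟨_, b₁, c₁, h1, rfl⟩
  obtain ⟨r₂, b₂, c₂, h2, hr₂⟩ : ∃ (r₂ : ℕ) (b₂ : Fin r₂ → B) (c₂ : Chart k b₂ k),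
      c₂.ker = I₂ ∧ r₂ = Module.finrank k (B ⧸ I₂) := by
    obtain ⟨b₂, c₂, h2⟩ := exists_chart_of_ideal (k := k) I₂
    exact ⟨_, b₂, c₂, h2, rfl⟩
  have hsum : r₁ + r₂ = r := by
    have e1 : (B ⧸ c.ker) ≃ₗ[k] ((B ⧸ I₁) × (B ⧸ I₂)) := by
      let φ : B →ₗ[k] ((B ⧸ I₁) × (B ⧸ I₂)) :=
        (Ideal.Quotient.mkₐ k I₁).toLinearMap.prod (Ideal.Quotient.mkₐ k I₂).toLinearMap
      have hk : LinearMap.ker φ = c.ker.restrictScalars k := by
        ext x
        rw [LinearMap.mem_ker, Submodule.restrictScalars_mem, ← hI, Ideal.mem_inf]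
        have hφ : φ x = (Ideal.Quotient.mk I₁ x, Ideal.Quotient.mk I₂ x) := rfl
        rw [hφ, Prod.mk_eq_zero, Ideal.Quotient.eq_zero_iff_mem, Ideal.Quotient.eq_zero_iff_mem]
      have hs : Function.Surjective φ := by
        rintro ⟨y1, y2⟩
        obtain ⟨x1, rfl⟩ := Ideal.Quotient.mk_surjective y1
        obtain ⟨x2, rfl⟩ := Ideal.Quotient.mk_surjective y2
        have h1 : (1 : B) ∈ I₁ ⊔ I₂ := hco ▸ Submodule.mem_top
        obtain ⟨u, hu, w, hw, huw⟩ := Submodule.mem_sup.1 h1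
        refine ⟨w * x1 + u * x2, ?_⟩
        refine Prod.ext ?_ ?_
        · change Ideal.Quotient.mk I₁ _ = Ideal.Quotient.mk I₁ _
          rw [Ideal.Quotient.eq]
          have : w * x1 + u * x2 - x1 = u * (x2 - x1) := by
            linear_combination x1 * huw
          rw [this]
          exact I₁.mul_mem_right _ hu
        · change Ideal.Quotient.mk I₂ _ = Ideal.Quotient.mk I₂ _
          rw [Ideal.Quotient.eq]
          have : w * x1 + u * x2 - x2 = w * (x1 - x2) := by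
            linear_combination x2 * huw
          rw [this]
          exact I₂.mul_mem_right _ hw
      exact (Submodule.quotEquivOfEq _ _ hk.symm).trans (φ.quotKerEquivOfSurjective hs)
    have h3 := e1.finrank_eq
    rw [finrank_ker, Module.finrank_prod] at h3
    rw [hr₁, hr₂]
    exact h3.symm
  let e : Fin r ≃ Fin r₁ ⊕ Fin r₂ := (finCongr hsum.symm).trans finSumFinEquiv.symm
  have hdet : (jm e c₁ c₂ b).det ≠ 0 := by
    intro h0
    obtain ⟨v, hv, hv0⟩ := Matrix.exists_vecMul_eq_zero_iff.2 h0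
    apply hv
    have h4 : jl e c₁ c₂ (∑ i, v i • b i) = Matrix.vecMul v (jm e c₁ c₂ b) := by
      rw [map_sum]
      ext j
      simp [Matrix.vecMul, dotProduct, jm]
    rw [hv0, jl_eq_zero_iff] at h4
    have h5 : ∑ i, v i • b i ∈ c.ker := by
      rw [← hI, Ideal.mem_inf, ← h1, ← h2, Chart.mem_ker, Chart.mem_ker]
      exact h4
    rw [Chart.mem_ker, map_sum] at h5
    ext j
    have := congrFun h5 j
    simpa [c.q_b, Pi.single_apply] using this
  obtain ⟨c', hc'⟩ := exists_sum e c₁ c₂ b (IsUnit.mk0 _ hdet)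
  have hcc : c = c' := by
    apply Chart.ideal_injective
    have h6 : c.ker = c'.ker := by rw [ker_joint e hdet hc', h1, h2, hI]
    have h7 : ∀ (c : Chart k b k) (x : k ⊗[k] B), x ∈ c.ideal ↔
        (TensorProduct.lid k B x) ∈ c.ker := by
      intro c x
      rw [Chart.mem_ideal, Chart.mem_ker]
      have : c.L x = c.q (TensorProduct.lid k B x) := by
        induction x using TensorProduct.induction_on with
        | zero => simp
        | add x y hx hy => simp [hx, hy]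
        | tmul r x => simp
      rw [this]
    ext x
    rw [h7, h7, h6]
  refine ⟨r₁, r₂, e, b₁, b₂, c₁, c₂, h1, h2, hsum, hdet, ?_⟩
  rw [hcc]
  exact hc'

end Ker

section Blk

variable {k : Type u} [Field k] {n : ℕ}

/-- In suitable coordinates of the quotient of length `r` the multiplications by the variables have
at most `R * r` places where they may be nonzero. -/
def Blk (R r : ℕ) (I : Ideal (MvPolynomial (Fin n) k)) : Prop :=
  ∃ (S : Finset (Fin r × Fin r)) (ρ : MvPolynomial (Fin n) k →ₗ[k] (Fin r → k))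
    (M : Fin n → Matrix (Fin r) (Fin r) k), S.card ≤ R * r ∧ Function.Surjective ρ ∧
    (∀ x, ρ x = 0 ↔ x ∈ I) ∧ (∀ j i l, (i, l) ∉ S → M j i l = 0) ∧
    ∀ j x, ρ (MvPolynomial.X j * x) = (M j).mulVec (ρ x)

lemma blk_of_le {R r : ℕ} (h : r ≤ R) {b : Fin r → MvPolynomial (Fin n) k} (c : Chart k b k) :
    Blk R r c.ker := by
  refine ⟨Finset.univ, c.q, fun j => Matrix.of fun i l => c.q (MvPolynomial.X j * b l) i,
    ?_, ?_, ?_, ?_, ?_⟩
  · rw [Finset.card_univ, Fintype.card_prod, Fintype.card_fin]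
    exact Nat.mul_le_mul_right _ h
  · intro v
    refine ⟨∑ i, v i • b i, ?_⟩
    rw [map_sum]
    ext j
    simp [c.q_b, Pi.single_apply]
  · intro x
    rw [Chart.mem_ker]
  · intro j i l h
    exact absurd (Finset.mem_univ _) h
  · intro j x
    rw [mul_comm, c.q_mul]
    ext i
    simp only [Finset.sum_apply, Pi.smul_apply, smul_eq_mul, Matrix.mulVec, dotProduct,
      Matrix.of_apply]
    refine Finset.sum_congr rfl fun l _ => ?_
    rw [mul_comm (b l), mul_comm]

lemma blk_inf {R r r₁ r₂ : ℕ} (e : Fin r ≃ Fin r₁ ⊕ Fin r₂) (hr : r₁ + r₂ = r)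
    {I₁ I₂ : Ideal (MvPolynomial (Fin n) k)} (h₁ : Blk R r₁ I₁) (h₂ : Blk R r₂ I₂)
    (hco : I₁ ⊔ I₂ = ⊤) : Blk R r (I₁ ⊓ I₂) := by
  classical
  obtain ⟨S₁, ρ₁, M₁, hS₁, hs₁, hk₁, hM₁, hm₁⟩ := h₁
  obtain ⟨S₂, ρ₂, M₂, hS₂, hs₂, hk₂, hM₂, hm₂⟩ := h₂
  let ρ : MvPolynomial (Fin n) k →ₗ[k] (Fin r → k) :=
    LinearMap.pi fun j => Sum.elim (fun i => LinearMap.proj i ∘ₗ ρ₁)
      (fun i => LinearMap.proj i ∘ₗ ρ₂) (e j)
  have hρ : ∀ x j, ρ x j = Sum.elim (ρ₁ x) (ρ₂ x) (e j) := by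
    intro x j
    simp only [ρ, LinearMap.pi_apply]
    cases e j <;> rfl
  refine ⟨S₁.image (fun p => (e.symm (Sum.inl p.1), e.symm (Sum.inl p.2))) ∪
    S₂.image (fun p => (e.symm (Sum.inr p.1), e.symm (Sum.inr p.2))), ρ,
    fun j => (Matrix.fromBlocks (M₁ j) 0 0 (M₂ j)).submatrix e e, ?_, ?_, ?_, ?_, ?_⟩
  · refine (Finset.card_union_le _ _).trans ?_
    have h1 := (Finset.card_image_le (s := S₁)
      (f := fun p => (e.symm (Sum.inl p.1), e.symm (Sum.inl p.2)))).trans hS₁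
    have h2 := (Finset.card_image_le (s := S₂)
      (f := fun p => (e.symm (Sum.inr p.1), e.symm (Sum.inr p.2)))).trans hS₂
    have h3 : R * r = R * r₁ + R * r₂ := by rw [← hr, mul_add]
    omega
  · intro v
    obtain ⟨x1, hx1⟩ := hs₁ (fun i => v (e.symm (Sum.inl i)))
    obtain ⟨x2, hx2⟩ := hs₂ (fun i => v (e.symm (Sum.inr i)))
    have h1 : (1 : MvPolynomial (Fin n) k) ∈ I₁ ⊔ I₂ := hco ▸ Submodule.mem_top
    obtain ⟨u, hu, w, hw, huw⟩ := Submodule.mem_sup.1 h1
    refine ⟨w * x1 + u * x2, ?_⟩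
    have e1 : ρ₁ (w * x1 + u * x2) = ρ₁ x1 := by
      rw [← sub_eq_zero, ← map_sub, hk₁]
      have : w * x1 + u * x2 - x1 = u * (x2 - x1) := by
        linear_combination x1 * huw
      rw [this]
      exact I₁.mul_mem_right _ hu
    have e2 : ρ₂ (w * x1 + u * x2) = ρ₂ x2 := by
      rw [← sub_eq_zero, ← map_sub, hk₂]
      have : w * x1 + u * x2 - x2 = w * (x1 - x2) := by
        linear_combination x2 * huw
      rw [this]
      exact I₂.mul_mem_right _ hw
    ext j
    rw [hρ, e1, e2, hx1, hx2]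
    obtain ⟨j', rfl⟩ := e.symm.surjective j
    rw [Equiv.apply_symm_apply]
    cases j' <;> rfl
  · intro x
    rw [Ideal.mem_inf, ← hk₁, ← hk₂]
    constructor
    · intro h
      constructor
      · ext i
        have := congrFun h (e.symm (Sum.inl i))
        rwa [hρ, Equiv.apply_symm_apply] at this
      · ext i
        have := congrFun h (e.symm (Sum.inr i))
        rwa [hρ, Equiv.apply_symm_apply] at this
    · rintro ⟨h1, h2⟩
      ext j
      rw [hρ, h1, h2]
      cases e j <;> rfl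
  · intro j i l hil
    obtain ⟨i', rfl⟩ := e.symm.surjective i
    obtain ⟨l', rfl⟩ := e.symm.surjective l
    beta_reduce
    rw [Matrix.submatrix_apply, Equiv.apply_symm_apply, Equiv.apply_symm_apply]
    cases i' with
    | inl i' =>
      cases l' with
      | inl l' =>
        rw [Matrix.fromBlocks_apply₁₁]
        apply hM₁
        intro hmem
        exact hil (Finset.mem_union_left _ (Finset.mem_image.2 ⟨(i', l'), hmem, rfl⟩))
      | inr l' => rw [Matrix.fromBlocks_apply₁₂]; rfl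
    | inr i' =>
      cases l' with
      | inl l' => rw [Matrix.fromBlocks_apply₂₁]; rfl
      | inr l' =>
        rw [Matrix.fromBlocks_apply₂₂]
        apply hM₂
        intro hmem
        exact hil (Finset.mem_union_right _ (Finset.mem_image.2 ⟨(i', l'), hmem, rfl⟩))
  · intro j x
    ext i
    obtain ⟨i', rfl⟩ := e.symm.surjective i
    rw [hρ, Equiv.apply_symm_apply]
    simp only [Matrix.mulVec, dotProduct, Matrix.submatrix_apply, Equiv.apply_symm_apply]
    rw [← e.symm.sum_comp, Fintype.sum_sum_type]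
    simp only [Equiv.apply_symm_apply, hρ]
    cases i' with
    | inl i' =>
      simp only [Sum.elim_inl, Matrix.fromBlocks_apply₁₁, Matrix.fromBlocks_apply₁₂,
        Matrix.zero_apply, zero_mul, Finset.sum_const_zero, add_zero]
      rw [hm₁]; rfl
    | inr i' =>
      simp only [Sum.elim_inr, Matrix.fromBlocks_apply₂₁, Matrix.fromBlocks_apply₂₂,
        Matrix.zero_apply, zero_mul, Finset.sum_const_zero, zero_add]
      rw [hm₂]; rfl

end Blk

end Pool.Agent.X320
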