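import Mathlib
import Pool.Agent.X320.Blk

set_option autoImplicit false

open scoped TensorProduct

universe u

namespace Pool.Agent.X320

open Pool.Agent.Helper226

section Family

variable {k : Type u} [Field k] {m r : ℕ}

/-- Let `J` be a set of monomials of degree at most `s` containing all monomials of degree less
than `s`. For all `D` there is a chart datum with basis `J`, which kills the monomials of degree
more than `s` and maps the monomials of degree `s` outside `J` to the combination of the monomials
of degree `s` in `J` given by `D`. -/
lemma exists_family (s : ℕ) (ex : Fin r → (Fin m →₀ ℕ)) (hinj : Function.Injective ex)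
    (h1 : ∀ e : Fin m →₀ ℕ, e.degree < s → ∃ i, ex i = e)
    (h2 : ∀ i, (ex i).degree ≤ s) (D : (Fin m →₀ ℕ) → (Fin m →₀ ℕ) → k) :
    ∃ c : Chart k (fun i => MvPolynomial.monomial (ex i) (1 : k)) k,
      ∀ e : Fin m →₀ ℕ, e.degree = s → (∀ i, ex i ≠ e) → ∀ i, (ex i).degree = s →
        c.q (MvPolynomial.monomial e 1) i = D e (ex i) := by
  classical
  let w : (Fin m →₀ ℕ) → (Fin r → k) := fun e i =>
    if ex i = e then 1 else
      if e.degree = s ∧ (∀ i, ex i ≠ e) ∧ (ex i).degree = s then D e (ex i) else 0
  let q : MvPolynomial (Fin m) k →ₗ[k] (Fin r → k) :=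
    (MvPolynomial.basisMonomials (Fin m) k).constr k w
  have hq : ∀ e, q (MvPolynomial.monomial e 1) = w e := by
    intro e
    have := Module.Basis.constr_basis (MvPolynomial.basisMonomials (Fin m) k) k w e
    rwa [MvPolynomial.coe_basisMonomials] at this
  have hw1 : ∀ i, w (ex i) = Pi.single i 1 := by
    intro i
    ext j
    simp only [w, Pi.single_apply]
    by_cases hij : j = i
    · subst hij; simp
    · rw [if_neg (fun h => hij (hinj h)), if_neg (fun h => h.2.1 i rfl), if_neg hij]
  have hw2 : ∀ e, s < e.degree → w e = 0 := by
    intro e he
    ext j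
    simp only [w, Pi.zero_apply]
    rw [if_neg, if_neg]
    · rintro ⟨h, -⟩; omega
    · rintro rfl
      have := h2 j
      omega
  have hqb : ∀ i, q (MvPolynomial.monomial (ex i) 1) = Pi.single i 1 := by
    intro i
    rw [hq, hw1]
  have hmono : ∀ e f : Fin m →₀ ℕ,
      w (e + f) = ∑ j, w e j • w (ex j + f) := by
    intro e f
    by_cases hf : f = 0
    · subst hf
      simp only [add_zero, hw1]
      ext l
      simp [Pi.single_apply]
    · have hdf : 0 < f.degree := by
        rw [Nat.pos_iff_ne_zero, Ne, Finsupp.degree_eq_zero_iff]
        exact hf
      by_cases he : ∃ i, ex i = e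
      · obtain ⟨i, rfl⟩ := he
        rw [hw1]
        simp [Pi.single_apply]
      · push Not at he
        have hes : s ≤ e.degree := by
          by_contra hlt
          push Not at hlt
          obtain ⟨i, hi⟩ := h1 e hlt
          exact he i hi
        rw [hw2 (e + f) (by rw [map_add]; omega)]
        symm
        apply Finset.sum_eq_zero
        intro j _
        by_cases hj : (ex j).degree = s
        · rw [hw2 (ex j + f) (by rw [map_add]; omega), smul_zero]
        · have : w e j = 0 := by
            simp only [w]
            rw [if_neg (he j), if_neg (fun h => hj h.2.2)]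
          rw [this, zero_smul]
  refine ⟨⟨q, hqb, ?_⟩, ?_⟩
  · intro x y
    induction x using MvPolynomial.induction_on' with
    | add p p' hp hp' =>
      rw [add_mul, map_add, hp, hp', map_add]
      simp only [Pi.add_apply, add_smul, Finset.sum_add_distrib]
    | monomial e a =>
      induction y using MvPolynomial.induction_on' with
      | add p p' hp hp' =>
        rw [mul_add, map_add, hp, hp']
        simp only [mul_add, map_add, smul_add, Finset.sum_add_distrib]
      | monomial f a' =>
        have h3 : ∀ (e : Fin m →₀ ℕ) (a : k), MvPolynomial.monomial e a =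
            a • MvPolynomial.monomial e (1 : k) := by
          intro e a
          rw [MvPolynomial.smul_monomial, smul_eq_mul, mul_one]
        rw [MvPolynomial.monomial_mul, h3, map_smul, hq, hmono, h3 e a, map_smul, hq,
          Finset.smul_sum]
        refine Finset.sum_congr rfl fun j _ => ?_
        rw [MvPolynomial.monomial_mul, one_mul, h3 _ a', map_smul, hq, Pi.smul_apply,
          smul_eq_mul, smul_smul, smul_smul]
        congr 1
        ring
  · intro e he hne i hi
    change q (MvPolynomial.monomial e 1) i = _
    rw [hq]
    simp only [w]
    rw [if_neg (hne i), if_pos ⟨he, hne, hi⟩]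

end Family

end Pool.Agent.X320
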