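import Mathlib

set_option autoImplicit false

universe u

namespace Pool.Agent.X320

open Cardinal

/-- More than `|σ|` elements of a localisation of the polynomial ring in the variables `σ` satisfy
a nonzero polynomial relation. -/
lemma exists_relation {k : Type u} [Field k] {σ E : Type} [Fintype σ] [Fintype E]
    (hc : Fintype.card σ < Fintype.card E) (δ : MvPolynomial σ k) (hδ : δ ≠ 0)
    (y : E → Localization.Away δ) :
    ∃ F : MvPolynomial E k, F ≠ 0 ∧ MvPolynomial.aeval y F = 0 := by
  classical
  by_contra hcon
  push Not at hcon
  have hle : Submonoid.powers δ ≤ nonZeroDivisors (MvPolynomial σ k) :=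
    powers_le_nonZeroDivisors_of_noZeroDivisors hδ
  have hdom : IsDomain (Localization.Away δ) := IsLocalization.isDomain_localization hle
  have hinj : Function.Injective (algebraMap (MvPolynomial σ k) (Localization.Away δ)) :=
    IsLocalization.injective _ hle
  have hfs : FaithfulSMul (MvPolynomial σ k) (Localization.Away δ) :=
    (faithfulSMul_iff_algebraMap_injective _ _).2 hinj
  have hai : AlgebraicIndependent k y := by
    rw [algebraicIndependent_iff]
    intro p hp
    by_contra h
    exact hcon p h hp
  have h1 := hai.lift_cardinalMk_le_trdeg
  have halg : Algebra.IsAlgebraic (MvPolynomial σ k) (Localization.Away δ) :=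
    IsLocalization.isAlgebraic _ (Submonoid.powers δ)
  have h2 := trdeg_add_eq k (MvPolynomial σ k) (A := Localization.Away δ)
  rw [trdeg_eq_zero (R := MvPolynomial σ k), add_zero, MvPolynomial.trdeg_of_isDomain] at h2
  rw [← h2] at h1
  simp only [mk_fintype, lift_natCast, Nat.cast_le] at h1
  omega

end Pool.Agent.X320
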