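import Mathlib
import Pool.Agent.X320.Blk
import Pool.Agent.X320.Trdeg

set_option autoImplicit false

open scoped TensorProduct

universe u

namespace Pool.Agent.X320

open Pool.Agent.Helper226

section Param

variable {k : Type u} [Field k] {m r : ℕ}

lemma prod_map_X_eq (s : Multiset (Fin m)) :
    (s.map (fun j => (MvPolynomial.X j : MvPolynomial (Fin m) k))).prod =
      MvPolynomial.monomial (Multiset.toFinsupp s) 1 := by
  induction s using Multiset.induction_on with
  | empty => simp
  | cons a s ih =>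
    rw [Multiset.map_cons, Multiset.prod_cons, ih, MvPolynomial.X, MvPolynomial.monomial_mul,
      one_mul, ← Multiset.singleton_add, map_add, Multiset.toFinsupp_singleton]

/-- a monomial as the product of a list of variables -/
lemma list_prod_X_eq (e : Fin m →₀ ℕ) :
    ((Finsupp.toMultiset e).toList.map
      (fun j => (MvPolynomial.X j : MvPolynomial (Fin m) k))).prod =
      MvPolynomial.monomial e 1 := by
  have h := prod_map_X_eq (k := k) (Finsupp.toMultiset e)
  rw [Finsupp.toMultiset_toFinsupp] at h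
  rw [← h]
  conv_rhs => rw [← Multiset.coe_toList (Finsupp.toMultiset e)]
  rw [Multiset.map_coe, Multiset.prod_coe]

/-- the parameters of the multiplication matrices supported in `S` and of a vector -/
abbrev Par (m r : ℕ) (S : Finset (Fin r × Fin r)) : Type := (Fin m × S) ⊕ Fin r

/-- generic matrix -/
noncomputable def gmat (k : Type u) [Field k] {m r : ℕ} (S : Finset (Fin r × Fin r)) (j : Fin m) :
    Matrix (Fin r) (Fin r) (MvPolynomial (Par m r S) k) :=
  Matrix.of fun i l => if h : (i, l) ∈ S then MvPolynomial.X (Sum.inl (j, ⟨(i, l), h⟩)) else 0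

/-- the coordinates of the monomials -/
noncomputable def gvec (k : Type u) [Field k] {m r : ℕ} (S : Finset (Fin r × Fin r))
    (e : Fin m →₀ ℕ) : Fin r → MvPolynomial (Par m r S) k :=
  (((Finsupp.toMultiset e).toList.map (gmat k S)).prod).mulVec
    (fun i => MvPolynomial.X (Sum.inr i))

/-- the coordinates of all polynomials -/
noncomputable def gl (k : Type u) [Field k] {m r : ℕ} (S : Finset (Fin r × Fin r)) :
    MvPolynomial (Fin m) k →ₗ[k] (Fin r → MvPolynomial (Par m r S) k) :=
  (MvPolynomial.basisMonomials (Fin m) k).constr k (gvec k S)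

lemma gl_monomial (S : Finset (Fin r × Fin r)) (e : Fin m →₀ ℕ) :
    gl k S (MvPolynomial.monomial e 1) = gvec k S e := by
  unfold gl
  have := Module.Basis.constr_basis (MvPolynomial.basisMonomials (Fin m) k) k (gvec k S) e
  rwa [MvPolynomial.coe_basisMonomials] at this

lemma mulVec_list {ρ : MvPolynomial (Fin m) k →ₗ[k] (Fin r → k)}
    {M : Fin m → Matrix (Fin r) (Fin r) k}
    (hM : ∀ j x, ρ (MvPolynomial.X j * x) = (M j).mulVec (ρ x)) (L : List (Fin m))
    (x : MvPolynomial (Fin m) k) :
    ρ ((L.map (fun j => (MvPolynomial.X j : MvPolynomial (Fin m) k))).prod * x) =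
      ((L.map M).prod).mulVec (ρ x) := by
  induction L with
  | nil => simp
  | cons a L ih =>
    rw [List.map_cons, List.prod_cons, mul_assoc, hM, ih, List.map_cons, List.prod_cons,
      Matrix.mulVec_mulVec]

/-- the point of the parameter space -/
def ppt {S : Finset (Fin r × Fin r)} (M : Fin m → Matrix (Fin r) (Fin r) k) (v : Fin r → k) :
    Par m r S → k := Sum.elim (fun p => M p.1 p.2.1.1 p.2.1.2) v

lemma eval_gl {S : Finset (Fin r × Fin r)} {ρ : MvPolynomial (Fin m) k →ₗ[k] (Fin r → k)}
    {M : Fin m → Matrix (Fin r) (Fin r) k}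
    (hS : ∀ j i l, (i, l) ∉ S → M j i l = 0)
    (hM : ∀ j x, ρ (MvPolynomial.X j * x) = (M j).mulVec (ρ x)) (x : MvPolynomial (Fin m) k)
    (i : Fin r) :
    MvPolynomial.aeval (ppt (S := S) M (ρ 1)) (gl k S x i) = ρ x i := by
  classical
  have hg : ∀ j, (gmat k S j).map (MvPolynomial.aeval (ppt (S := S) M (ρ 1))) = M j := by
    intro j
    ext i l
    rw [Matrix.map_apply, gmat, Matrix.of_apply]
    split_ifs with h
    · rw [MvPolynomial.aeval_X]; rfl
    · rw [map_zero, hS j i l h]
  let φ : MvPolynomial (Fin m) k →ₗ[k] (Fin r → k) :=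
    ((MvPolynomial.aeval (ppt (S := S) M (ρ 1))).toLinearMap.compLeft (Fin r)) ∘ₗ gl k S
  have hφ : φ = ρ := by
    apply MvPolynomial.basisMonomials (Fin m) k |>.ext
    intro e
    rw [MvPolynomial.coe_basisMonomials]
    ext i
    change MvPolynomial.aeval (ppt (S := S) M (ρ 1))
      (gl k S (MvPolynomial.monomial e 1) i) = ρ (MvPolynomial.monomial e 1) i
    rw [gl_monomial, ← list_prod_X_eq, ← mul_one (List.prod _), mulVec_list hM]
    unfold gvec
    have h1 : ∀ (A : Matrix (Fin r) (Fin r) (MvPolynomial (Par m r S) k))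
        (v : Fin r → MvPolynomial (Par m r S) k) (i : Fin r),
        MvPolynomial.aeval (ppt (S := S) M (ρ 1)) (A.mulVec v i) =
        (A.map (MvPolynomial.aeval (ppt (S := S) M (ρ 1)))).mulVec
          (fun l => MvPolynomial.aeval (ppt (S := S) M (ρ 1)) (v l)) i := by
      intro A v i
      simp [Matrix.mulVec, dotProduct]
    rw [h1]
    have h2 : (fun l : Fin r => MvPolynomial.aeval (ppt (S := S) M (ρ 1))
        (MvPolynomial.X (Sum.inr l) : MvPolynomial (Par m r S) k)) = ρ 1 := by
      ext l
      rw [MvPolynomial.aeval_X]; rfl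
    rw [h2]
    congr 2
    have h3 : ∀ L : List (Fin m), ((L.map (gmat k S)).prod).map
        (MvPolynomial.aeval (ppt (S := S) M (ρ 1))) = (L.map M).prod := by
      intro L
      induction L with
      | nil =>
        simp
      | cons a L ih =>
        rw [List.map_cons, List.prod_cons, List.map_cons, List.prod_cons, Matrix.map_mul, ih, hg]
    exact h3 _
  exact congrFun (LinearMap.congr_fun hφ x) i

lemma vecMul_q {b : Fin r → MvPolynomial (Fin m) k} (c : Chart k b k)
    {ρ : MvPolynomial (Fin m) k →ₗ[k] (Fin r → k)} (hρ : ∀ x, ρ x = 0 ↔ x ∈ c.ker)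
    (x : MvPolynomial (Fin m) k) :
    Matrix.vecMul (c.q x) (Matrix.of fun l i => ρ (b l) i) = ρ x := by
  have h1 : x - ∑ l, c.q x l • b l ∈ c.ker := by
    rw [Chart.mem_ker, map_sub, map_sum, sub_eq_zero]
    ext j
    simp [c.q_b, Pi.single_apply]
  rw [← hρ, map_sub, sub_eq_zero, map_sum] at h1
  rw [h1]
  ext i
  simp [Matrix.vecMul, dotProduct]

lemma det_ne_zero_of_ker {b : Fin r → MvPolynomial (Fin m) k} (c : Chart k b k)
    {ρ : MvPolynomial (Fin m) k →ₗ[k] (Fin r → k)} (hρ : ∀ x, ρ x = 0 ↔ x ∈ c.ker) :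
    (Matrix.of fun l i => ρ (b l) i).det ≠ 0 := by
  intro h0
  obtain ⟨v, hv, hv0⟩ := Matrix.exists_vecMul_eq_zero_iff.2 h0
  apply hv
  have h4 : ρ (∑ i, v i • b i) = 0 := by
    rw [← hv0, map_sum]
    ext j
    simp [Matrix.vecMul, dotProduct]
  rw [hρ, Chart.mem_ker, map_sum] at h4
  ext j
  have := congrFun h4 j
  simpa [c.q_b, Pi.single_apply] using this

lemma vecMul_inv_cancel {Q : Type u} [CommRing Q] {T : Matrix (Fin r) (Fin r) Q}
    (hu : IsUnit T.det) (w : Fin r → Q) : Matrix.vecMul (Matrix.vecMul w T⁻¹) T = w := by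
  rw [Matrix.vecMul_vecMul, Matrix.nonsing_inv_mul _ hu, Matrix.vecMul_one]

lemma vecMul_injective {Q : Type u} [CommRing Q] {T : Matrix (Fin r) (Fin r) Q}
    (hu : IsUnit T.det) {v w : Fin r → Q} (h : Matrix.vecMul v T = Matrix.vecMul w T) : v = w := by
  have h6 := congrArg (fun v => Matrix.vecMul v T⁻¹) h
  simpa only [Matrix.vecMul_vecMul, Matrix.mul_nonsing_inv _ hu, Matrix.vecMul_one] using h6

lemma map_vecMul {Q Q' : Type u} [CommRing Q] [CommRing Q'] (ψ : Q →+* Q')
    (T : Matrix (Fin r) (Fin r) Q) (v : Fin r → Q) (i : Fin r) :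
    ψ (Matrix.vecMul v T i) = Matrix.vecMul (fun i => ψ (v i)) (T.map ψ) i := by
  simp [Matrix.vecMul, dotProduct]

/-- More than `m * (R * r) + r` coordinates satisfy a relation on the block ideals. -/
lemma exists_relation_blk (R : ℕ) (b : Fin r → MvPolynomial (Fin m) k) {E : Type} [Fintype E]
    (hE : m * (R * r) + r < Fintype.card E) (x : E → MvPolynomial (Fin m) k) (l : E → Fin r) :
    ∃ F : MvPolynomial E k, F ≠ 0 ∧ ∀ c : Chart k b k, Blk R r c.ker →
      MvPolynomial.eval (fun i => c.q (x i) (l i)) F = 0 := by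
  classical
  have key : ∀ S : Finset (Fin r × Fin r), ∃ F : MvPolynomial E k, F ≠ 0 ∧
      ∀ c : Chart k b k, (∃ (ρ : MvPolynomial (Fin m) k →ₗ[k] (Fin r → k))
        (M : Fin m → Matrix (Fin r) (Fin r) k), S.card ≤ R * r ∧ Function.Surjective ρ ∧
        (∀ x, ρ x = 0 ↔ x ∈ c.ker) ∧ (∀ j i l, (i, l) ∉ S → M j i l = 0) ∧
        ∀ j x, ρ (MvPolynomial.X j * x) = (M j).mulVec (ρ x)) →
      MvPolynomial.eval (fun i => c.q (x i) (l i)) F = 0 := by
    intro S
    by_cases hS : S.card ≤ R * r
    swap
    · exact ⟨1, one_ne_zero, fun c ⟨_, _, h, _⟩ => absurd h hS⟩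
    set T : Matrix (Fin r) (Fin r) (MvPolynomial (Par m r S) k) :=
      Matrix.of fun l i => gl k S (b l) i with hT
    by_cases hδ : T.det = 0
    · refine ⟨1, one_ne_zero, ?_⟩
      rintro c ⟨ρ, M, -, -, hρ, hMS, hM⟩
      exfalso
      apply det_ne_zero_of_ker c hρ
      have h1 : (Matrix.of fun l i => ρ (b l) i) =
          T.map (MvPolynomial.aeval (ppt (S := S) M (ρ 1))) := by
        ext l i
        rw [Matrix.of_apply, Matrix.map_apply, hT, Matrix.of_apply, eval_gl hMS hM]
      rw [h1]
      have h2 := (MvPolynomial.aeval (R := k) (ppt (S := S) M (ρ 1))).map_det T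
      rw [hδ, map_zero] at h2
      exact h2.symm
    · let Qδ := Localization.Away T.det
      let T' : Matrix (Fin r) (Fin r) Qδ := T.map (algebraMap _ Qδ)
      have hu : IsUnit T'.det := by
        have : T'.det = algebraMap _ Qδ T.det := by
          exact ((algebraMap (MvPolynomial (Par m r S) k) Qδ).map_det T).symm
        rw [this]
        exact IsLocalization.Away.algebraMap_isUnit _
      let Y : MvPolynomial (Fin m) k → (Fin r → Qδ) := fun x =>
        Matrix.vecMul (fun i => algebraMap _ Qδ (gl k S x i)) T'⁻¹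
      have hY : ∀ x, Matrix.vecMul (Y x) T' = fun i => algebraMap _ Qδ (gl k S x i) := by
        intro x
        exact vecMul_inv_cancel hu _
      have hcard : Fintype.card (Par m r S) < Fintype.card E := by
        rw [Fintype.card_sum, Fintype.card_prod, Fintype.card_fin, Fintype.card_fin,
          Fintype.card_coe]
        have := Nat.mul_le_mul_left m hS
        omega
      obtain ⟨F, hF, hF0⟩ := exists_relation hcard T.det hδ (fun e : E => Y (x e) (l e))
      refine ⟨F, hF, ?_⟩
      rintro c ⟨ρ, M, -, -, hρ, hMS, hM⟩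
      let ev : MvPolynomial (Par m r S) k →ₐ[k] k := MvPolynomial.aeval (ppt (S := S) M (ρ 1))
      have hev : (Matrix.of fun l i => ρ (b l) i) = T.map ev := by
        ext l i
        rw [Matrix.of_apply, Matrix.map_apply, hT, Matrix.of_apply]
        exact (eval_gl hMS hM _ _).symm
      have hevd : ev T.det ≠ 0 := by
        have h2 := ev.map_det T
        rw [h2]
        have h3 := det_ne_zero_of_ker c hρ
        rw [hev] at h3
        exact h3
      let ψ : Qδ →ₐ[k] k := IsLocalization.liftAlgHom (M := Submonoid.powers T.det) (f := ev) (by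
        rintro ⟨_, n, rfl⟩
        have := (IsUnit.mk0 _ hevd).pow n
        simpa using this)
      have hψ : ∀ z, ψ (algebraMap _ Qδ z) = ev z := by
        intro z
        simp [ψ]
      have hq : ∀ x i, ψ (Y x i) = c.q x i := by
        intro x
        have h1 : Matrix.vecMul (fun i => ψ (Y x i)) (T.map ev) = ρ x := by
          ext j
          have h2 := congrArg ψ (congrFun (hY x) j)
          have h2' : ψ (algebraMap _ Qδ (gl k S x j)) = ρ x j := by
            rw [hψ]
            exact eval_gl hMS hM _ _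
          have h8 := map_vecMul ψ.toRingHom T' (Y x) j
          have h9 : T'.map ψ.toRingHom = T.map ev := by
            ext i j
            exact hψ _
          rw [h9] at h8
          exact h8.symm.trans (h2.trans h2')
        have h4 := vecMul_q c hρ x
        rw [hev] at h4
        have h5 : Matrix.vecMul (fun i => ψ (Y x i)) (T.map ev) =
            Matrix.vecMul (c.q x) (T.map ev) := h1.trans h4.symm
        have hu' : IsUnit (T.map ev).det := by
          rw [← hev]
          exact IsUnit.mk0 _ (det_ne_zero_of_ker c hρ)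
        exact fun i => congrFun (vecMul_injective hu' h5) i
      have h7 := congrArg ψ hF0
      rw [map_zero, MvPolynomial.comp_aeval_apply] at h7
      simp only [hq] at h7
      rw [← h7, MvPolynomial.aeval_eq_eval]
  choose F hF hF0 using key
  refine ⟨∏ S, F S, Finset.prod_ne_zero_iff.2 fun S _ => hF S, ?_⟩
  rintro c ⟨S, ρ, M, hS, h⟩
  rw [map_prod]
  exact Finset.prod_eq_zero (Finset.mem_univ S) (hF0 S c ⟨ρ, M, hS, h⟩)

end Param

end Pool.Agent.X320
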