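import Mathlib
import Pool.Agent.X320.Blk

set_option autoImplicit false

open scoped TensorProduct

universe u

namespace Pool.Agent.X320

open Pool.Agent.Helper226

section Split

variable {k : Type u} [Field k] {B : Type u} [CommRing B] [Algebra k B]

/-- Fitting decomposition of a quotient algebra of finite dimension -/
lemma exists_split (I : Ideal B) [FiniteDimensional k (B ⧸ I)] (f : B) (m₁ m₂ : Ideal B)
    (h₁ : m₁ ≠ ⊤) (h₂ : m₂.IsPrime) (hI₁ : I ≤ m₁) (hI₂ : I ≤ m₂) (hf₁ : f ∈ m₁) (hf₂ : f ∉ m₂) :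
    ∃ I₁ I₂ : Ideal B, I₁ ⊓ I₂ = I ∧ I₁ ⊔ I₂ = ⊤ ∧ I₁ ≠ ⊤ ∧ I₂ ≠ ⊤ := by
  let φ : Module.End k (B ⧸ I) := LinearMap.mulLeft k (Ideal.Quotient.mk I f)
  obtain ⟨N, hN⟩ := Filter.eventually_atTop.1 (LinearMap.eventually_isCompl_ker_pow_range_pow φ)
  have hc := hN (N + 1) (Nat.le_succ N)
  set n := N + 1 with hn
  have hφ : ∀ x : B, (φ ^ n) (Ideal.Quotient.mk I x) = Ideal.Quotient.mk I (f ^ n * x) := by
    intro x
    have : φ ^ n = LinearMap.mulLeft k ((Ideal.Quotient.mk I f) ^ n) := by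
      simp only [φ, LinearMap.pow_mulLeft]
    rw [this, LinearMap.mulLeft_apply, map_mul, map_pow]
  let I₁ : Ideal B :=
    { carrier := {x | f ^ n * x ∈ I}
      add_mem' := by
        intro x y hx hy
        simp only [Set.mem_ofPred_eq] at *
        rw [mul_add]
        exact I.add_mem hx hy
      zero_mem' := by simp
      smul_mem' := by
        intro c x hx
        simp only [Set.mem_ofPred_eq] at *
        rw [smul_eq_mul, mul_left_comm]
        exact I.mul_mem_left _ hx }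
  have hI₁m : ∀ x, x ∈ I₁ ↔ f ^ n * x ∈ I := fun x => Iff.rfl
  refine ⟨I₁, I ⊔ Ideal.span {f ^ n}, ?_, ?_, ?_, ?_⟩
  · apply le_antisymm
    · intro x hx
      obtain ⟨hx1, hx2⟩ := Ideal.mem_inf.1 hx
      obtain ⟨i, hi, z, hz, hiz⟩ := Submodule.mem_sup.1 hx2
      obtain ⟨y, rfl⟩ := Ideal.mem_span_singleton'.1 hz
      have h3 : Ideal.Quotient.mk I x ∈ LinearMap.ker (φ ^ n) := by
        rw [LinearMap.mem_ker, hφ, Ideal.Quotient.eq_zero_iff_mem]
        exact hx1
      have h4 : Ideal.Quotient.mk I x ∈ LinearMap.range (φ ^ n) := by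
        refine ⟨Ideal.Quotient.mk I y, ?_⟩
        rw [hφ, Ideal.Quotient.eq, ← hiz]
        have : f ^ n * y - (i + y * f ^ n) = -i := by ring
        rw [this]
        exact I.neg_mem hi
      have h5 := (Submodule.disjoint_def.1 hc.disjoint) _ h3 h4
      rwa [Ideal.Quotient.eq_zero_iff_mem] at h5
    · intro x hx
      exact Ideal.mem_inf.2 ⟨I.mul_mem_left _ hx, Ideal.mem_sup_left hx⟩
  · rw [Ideal.eq_top_iff_one]
    have h1 : (Ideal.Quotient.mk I 1) ∈ LinearMap.ker (φ ^ n) ⊔ LinearMap.range (φ ^ n) := by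
      rw [hc.sup_eq_top]; trivial
    obtain ⟨u, hu, v, ⟨w, rfl⟩, huv⟩ := Submodule.mem_sup.1 h1
    obtain ⟨u, rfl⟩ := Ideal.Quotient.mk_surjective u
    obtain ⟨w, rfl⟩ := Ideal.Quotient.mk_surjective w
    rw [LinearMap.mem_ker, hφ, Ideal.Quotient.eq_zero_iff_mem] at hu
    rw [hφ, ← map_add, eq_comm, Ideal.Quotient.eq] at huv
    have : (1 : B) = u + ((1 - (u + f ^ n * w)) + w * f ^ n) := by ring
    rw [this]
    exact Ideal.add_mem _ (Ideal.mem_sup_left hu) (Ideal.mem_sup_right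
      (Submodule.add_mem_sup huv (Ideal.mem_span_singleton'.2 ⟨w, rfl⟩)))
  · rw [Ideal.ne_top_iff_one, hI₁m, mul_one]
    intro h
    exact hf₂ (h₂.mem_of_pow_mem _ (hI₂ h))
  · intro h
    apply h₁
    rw [eq_top_iff, ← h]
    refine sup_le hI₁ ?_
    rw [Ideal.span_le, Set.singleton_subset_iff]
    exact Ideal.pow_mem_of_mem _ hf₁ _ (Nat.succ_pos N)

end Split

section Poly

variable {k : Type u} [Field k] [IsAlgClosed k] {m : ℕ}

/-- the subscheme is supported at a single point -/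
def OnePt (I : Ideal (MvPolynomial (Fin m) k)) : Prop :=
  ∃! a : Fin m → k, ∀ g ∈ I, MvPolynomial.eval a g = 0

lemma exists_split_of_not_onePt (I : Ideal (MvPolynomial (Fin m) k))
    [FiniteDimensional k (MvPolynomial (Fin m) k ⧸ I)] (hI : I ≠ ⊤) (h : ¬ OnePt I) :
    ∃ I₁ I₂ : Ideal (MvPolynomial (Fin m) k), I₁ ⊓ I₂ = I ∧ I₁ ⊔ I₂ = ⊤ ∧ I₁ ≠ ⊤ ∧ I₂ ≠ ⊤ := by
  obtain ⟨M, hM, hIM⟩ := Ideal.exists_le_maximal I hI
  obtain ⟨a, ha⟩ := MvPolynomial.isMaximal_iff_eq_vanishingIdeal_singleton.1 hM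
  have ha0 : ∀ g ∈ I, MvPolynomial.eval a g = 0 := by
    intro g hg
    have := hIM hg
    rw [ha, MvPolynomial.mem_vanishingIdeal_singleton_iff] at this
    simpa [MvPolynomial.aeval_eq_eval] using this
  have h2 : ∃ a' : Fin m → k, (∀ g ∈ I, MvPolynomial.eval a' g = 0) ∧ a' ≠ a := by
    by_contra hcon
    push Not at hcon
    exact h ⟨a, ha0, fun y hy => hcon y hy⟩
  obtain ⟨a', ha', hne⟩ := h2
  obtain ⟨j, hj⟩ := Function.ne_iff.1 hne
  refine exists_split (k := k) I (MvPolynomial.X j - MvPolynomial.C (a j))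
    (RingHom.ker (MvPolynomial.eval a)) (RingHom.ker (MvPolynomial.eval a'))
    (RingHom.ker_ne_top _) (RingHom.ker_isPrime _) ?_ ?_ ?_ ?_
  · intro g hg
    exact ha0 g hg
  · intro g hg
    exact ha' g hg
  · rw [RingHom.mem_ker]; simp
  · rw [RingHom.mem_ker]
    simpa [sub_eq_zero] using hj

end Poly

section Induction

variable {k : Type u} [Field k] [IsAlgClosed k] {m : ℕ}

/-- If for `R < r ≤ N` every nonempty open subset of the Hilbert scheme of `r` points has a point
whose subscheme has at least two points in its support, then the block ideals are dense. -/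
lemma dense_blk (R N : ℕ)
    (hne : ∀ r : ℕ, R < r → r ≤ N → ∀ (b : Fin r → MvPolynomial (Fin m) k) (f : AR k b)
      (c : Chart k b k), clf c f ≠ 0 → ∃ c' : Chart k b k, clf c' f ≠ 0 ∧ ¬ OnePt c'.ker)
    (r : ℕ) : r ≤ N → ∀ (b : Fin r → MvPolynomial (Fin m) k) (f : AR k b)
      (c : Chart k b k), clf c f ≠ 0 → ∃ c' : Chart k b k, clf c' f ≠ 0 ∧ Blk R r c'.ker := by
  induction r using Nat.strong_induction_on with
  | _ r ih =>
    intro hrN b f c hc
    by_cases hr : r ≤ R
    · exact ⟨c, hc, blk_of_le hr c⟩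
    · push Not at hr
      obtain ⟨c', hc', hnot⟩ := hne r hr hrN b f c hc
      have hfd := finiteDimensional_ker c'
      have htop : c'.ker ≠ ⊤ := by
        intro h
        have h1 := finrank_ker c'
        have h2 : Subsingleton (MvPolynomial (Fin m) k ⧸ c'.ker) :=
          Ideal.Quotient.subsingleton_iff.2 h
        rw [Module.finrank_zero_of_subsingleton] at h1
        omega
      obtain ⟨I₁, I₂, hinf, hsup, hne1, hne2⟩ := exists_split_of_not_onePt _ htop hnot
      obtain ⟨r₁, r₂, e, b₁, b₂, c₁, c₂, hk1, hk2, hsum, hdet, hjoint⟩ :=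
        exists_joint c' hinf hsup
      have hr1 : 0 < r₁ := by
        rcases Nat.eq_zero_or_pos r₁ with h | h
        · exfalso
          subst h
          apply hne1
          rw [← hk1, Ideal.eq_top_iff_one, Chart.mem_ker]
          exact Subsingleton.elim _ _
        · exact h
      have hr2 : 0 < r₂ := by
        rcases Nat.eq_zero_or_pos r₂ with h | h
        · exfalso
          subst h
          apply hne2
          rw [← hk2, Ideal.eq_top_iff_one, Chart.mem_ker]
          exact Subsingleton.elim _ _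
        · exact h
      -- vary the first factor
      obtain ⟨g₁, hg₁⟩ := exists_pullback e (uc k b₁) (c₂.map (Algebra.ofId k (AR k b₁))) b f
      have hid : ∀ (b : Fin r₂ → MvPolynomial (Fin m) k) (c : Chart k b k)
          (φ : AR k b₁ →ₐ[k] k), (c.map (Algebra.ofId k (AR k b₁))).map φ = c := by
        intro b c φ
        rw [Chart.map_map]
        have : φ.comp (Algebra.ofId k (AR k b₁)) = AlgHom.id k k := Subsingleton.elim _ _
        rw [this, Chart.map_id]
      have h1 : clf c₁ g₁ ≠ 0 := by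
        rw [hg₁, uc_map_clf, hid]
        refine ⟨hdet, fun c'' hc'' => ?_⟩
        have : c'' = c' := sum_unique e (IsUnit.mk0 _ hdet) hc'' hjoint
        rw [this]
        exact hc'
      obtain ⟨d₁, hd₁, hB₁⟩ := ih r₁ (by omega) (by omega) b₁ g₁ c₁ h1
      rw [hg₁, uc_map_clf, hid] at hd₁
      obtain ⟨hdet1, hall1⟩ := hd₁
      obtain ⟨c'', hc''⟩ := exists_sum e d₁ c₂ b (IsUnit.mk0 _ hdet1)
      have hf1 := hall1 c'' hc''
      -- vary the second factor
      obtain ⟨g₂, hg₂⟩ := exists_pullback e (d₁.map (Algebra.ofId k (AR k b₂))) (uc k b₂) b f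
      have hid2 : ∀ (b : Fin r₁ → MvPolynomial (Fin m) k) (c : Chart k b k)
          (φ : AR k b₂ →ₐ[k] k), (c.map (Algebra.ofId k (AR k b₂))).map φ = c := by
        intro b c φ
        rw [Chart.map_map]
        have : φ.comp (Algebra.ofId k (AR k b₂)) = AlgHom.id k k := Subsingleton.elim _ _
        rw [this, Chart.map_id]
      have h2 : clf c₂ g₂ ≠ 0 := by
        rw [hg₂, uc_map_clf, hid2]
        refine ⟨hdet1, fun c₃ hc₃ => ?_⟩
        have : c₃ = c'' := sum_unique e (IsUnit.mk0 _ hdet1) hc₃ hc''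
        rw [this]
        exact hf1
      obtain ⟨d₂, hd₂, hB₂⟩ := ih r₂ (by omega) (by omega) b₂ g₂ c₂ h2
      rw [hg₂, uc_map_clf, hid2] at hd₂
      obtain ⟨hdet2, hall2⟩ := hd₂
      obtain ⟨c₃, hc₃⟩ := exists_sum e d₁ d₂ b (IsUnit.mk0 _ hdet2)
      refine ⟨c₃, hall2 c₃ hc₃, ?_⟩
      rw [ker_joint e hdet2 hc₃]
      exact blk_inf e hsum hB₁ hB₂ (coprime_joint e hdet2)

end Induction

end Pool.Agent.X320
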