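import Mathlib
import Pool.Agent.X320.Split
import Pool.Agent.X320.Param
import Pool.Agent.X320.Family

set_option autoImplicit false

open scoped TensorProduct

universe u

namespace Pool.Agent.X320

open Pool.Agent.Helper226

section Expo

/-- exponent vector -/
noncomputable def expo (a b c : ℕ) : Fin 3 →₀ ℕ := Finsupp.equivFunOnFinite.symm ![a, b, c]

lemma expo_zero (a b c : ℕ) : expo a b c 0 = a := rfl
lemma expo_one (a b c : ℕ) : expo a b c 1 = b := rfl
lemma expo_two (a b c : ℕ) : expo a b c 2 = c := rfl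

lemma degree_three (e : Fin 3 →₀ ℕ) : e.degree = e 0 + e 1 + e 2 := by
  rw [Finsupp.degree_eq_sum, Fin.sum_univ_three]

lemma expo_self (e : Fin 3 →₀ ℕ) : expo (e 0) (e 1) (e 2) = e := by
  ext i
  fin_cases i <;> rfl

lemma degree_expo (a b c : ℕ) : (expo a b c).degree = a + b + c := by
  rw [degree_three]; rfl

open Classical in
/-- the monomials of degree less than `3 n` -/
noncomputable def J0 (n : ℕ) : Finset (Fin 3 →₀ ℕ) :=
  ((Finset.range (3 * n) ×ˢ Finset.range (3 * n) ×ˢ Finset.range (3 * n)).image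
    (fun p => expo p.1 p.2.1 p.2.2)).filter (fun e => e.degree < 3 * n)

/-- some monomials of degree `3 n` -/
noncomputable def bet (n : ℕ) (p : Fin n × Fin n) : Fin 3 →₀ ℕ :=
  expo p.1 p.2 (3 * n - p.1 - p.2)

/-- other monomials of degree `3 n` -/
noncomputable def oth (n : ℕ) (p : Fin n × Fin n) : Fin 3 →₀ ℕ :=
  expo (n + p.1) p.2 (2 * n - p.1 - p.2)

open Classical in
/-- the basis monomials -/
noncomputable def JJ (n : ℕ) : Finset (Fin 3 →₀ ℕ) :=
  J0 n ∪ (Finset.univ : Finset (Fin n × Fin n)).image (bet n)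

lemma card_JJ_le (n : ℕ) : (JJ n).card ≤ 27 * n ^ 3 + n ^ 2 := by
  classical
  refine (Finset.card_union_le _ _).trans (Nat.add_le_add ?_ ?_)
  · refine (Finset.card_filter_le _ _).trans (Finset.card_image_le.trans ?_)
    rw [Finset.card_product, Finset.card_product, Finset.card_range]
    exact le_of_eq (by ring)
  · refine Finset.card_image_le.trans ?_
    rw [Finset.card_univ, Fintype.card_prod, Fintype.card_fin]
    exact le_of_eq (by ring)

lemma mem_JJ_of_degree_lt {n : ℕ} {e : Fin 3 →₀ ℕ} (h : e.degree < 3 * n) : e ∈ JJ n := by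
  classical
  refine Finset.mem_union_left _ (Finset.mem_filter.2 ⟨Finset.mem_image.2
    ⟨(e 0, e 1, e 2), ?_, expo_self e⟩, h⟩)
  rw [degree_three] at h
  simp only [Finset.mem_product, Finset.mem_range]
  omega

lemma degree_bet {n : ℕ} (p : Fin n × Fin n) : (bet n p).degree = 3 * n := by
  unfold bet
  rw [degree_expo]
  have := p.1.2
  have := p.2.2
  omega

lemma degree_oth {n : ℕ} (p : Fin n × Fin n) : (oth n p).degree = 3 * n := by
  unfold oth
  rw [degree_expo]
  have := p.1.2
  have := p.2.2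
  omega

lemma degree_le_of_mem_JJ {n : ℕ} {e : Fin 3 →₀ ℕ} (h : e ∈ JJ n) : e.degree ≤ 3 * n := by
  classical
  rcases Finset.mem_union.1 h with h | h
  · exact (Finset.mem_filter.1 h).2.le
  · obtain ⟨p, -, rfl⟩ := Finset.mem_image.1 h
    exact (degree_bet p).le

lemma bet_mem {n : ℕ} (p : Fin n × Fin n) : bet n p ∈ JJ n := by
  classical
  exact Finset.mem_union_right _ (Finset.mem_image_of_mem _ (Finset.mem_univ _))

lemma oth_notMem {n : ℕ} (p : Fin n × Fin n) : oth n p ∉ JJ n := by
  classical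
  intro h
  rcases Finset.mem_union.1 h with h | h
  · have := (Finset.mem_filter.1 h).2
    rw [degree_oth] at this
    omega
  · obtain ⟨p', -, hp'⟩ := Finset.mem_image.1 h
    have h1 := DFunLike.congr_fun hp' 0
    have h2 : bet n p' 0 = p'.1 := rfl
    have h3 : oth n p 0 = n + p.1 := rfl
    rw [h2, h3] at h1
    have := p'.1.2
    omega

lemma bet_injective (n : ℕ) : Function.Injective (bet n) := by
  intro p p' h
  have h1 : (p.1 : ℕ) = p'.1 := DFunLike.congr_fun h 0
  have h2 : (p.2 : ℕ) = p'.2 := DFunLike.congr_fun h 1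
  exact Prod.ext (Fin.ext h1) (Fin.ext h2)

lemma oth_injective (n : ℕ) : Function.Injective (oth n) := by
  intro p p' h
  have h1 : n + (p.1 : ℕ) = n + p'.1 := DFunLike.congr_fun h 0
  have h2 : (p.2 : ℕ) = p'.2 := DFunLike.congr_fun h 1
  exact Prod.ext (Fin.ext (by omega)) (Fin.ext h2)

end Expo

section Main

variable (k : Type u) [Field k] [IsAlgClosed k]

/-- For every `R` there is a length `r > R` and a nonempty basic open subset of a chart of the
Hilbert scheme of `r` points of affine `3`-space all of whose points are supported at one point. -/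
theorem exists_open_onePt (R : ℕ) : ∃ r : ℕ, R < r ∧ r ≤ 28 * (84 * R + 29) ^ 3 ∧
    ∃ (b : Fin r → MvPolynomial (Fin 3) k) (f : AR k b) (c : Chart k b k), clf c f ≠ 0 ∧
      ∀ c' : Chart k b k, clf c' f ≠ 0 → OnePt c'.ker := by
  classical
  by_contra hcon
  push Not at hcon
  set n := 84 * R + 29 with hn
  have hN : (JJ n).card ≤ 28 * n ^ 3 := by
    refine (card_JJ_le n).trans ?_
    have : n ^ 2 ≤ n ^ 3 := Nat.pow_le_pow_right (by omega) (by norm_num)
    omega
  set r := (JJ n).card with hr
  let eqv : JJ n ≃ Fin r := (JJ n).equivFin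
  let ex : Fin r → (Fin 3 →₀ ℕ) := fun i => (eqv.symm i).1
  have hexinj : Function.Injective ex :=
    Subtype.val_injective.comp eqv.symm.injective
  let b : Fin r → MvPolynomial (Fin 3) k := fun i => MvPolynomial.monomial (ex i) 1
  have hdense := dense_blk (k := k) (m := 3) R (28 * n ^ 3) (fun r' h1 h2 b f c hc => by
    obtain ⟨c', hc', hc''⟩ := hcon r' h1 h2 b f c hc
    exact ⟨c', hc', hc''⟩) r hN b
  let l : (Fin n × Fin n) × (Fin n × Fin n) → Fin r := fun e => eqv ⟨bet n e.2, bet_mem e.2⟩
  have hl : ∀ e, ex (l e) = bet n e.2 := by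
    intro e
    simp only [ex, l, Equiv.symm_apply_apply]
  have hcard : 3 * (R * r) + r < Fintype.card ((Fin n × Fin n) × (Fin n × Fin n)) := by
    simp only [Fintype.card_prod, Fintype.card_fin]
    have h1 : 3 * (R * r) + r = (3 * R + 1) * r := by ring
    rw [h1]
    have h2 : (3 * R + 1) * r ≤ (3 * R + 1) * (28 * n ^ 3) := Nat.mul_le_mul_left _ hN
    refine lt_of_le_of_lt h2 ?_
    have h3 : (3 * R + 1) * (28 * n ^ 3) = (84 * R + 28) * n ^ 3 := by ring
    have h4 : n * n * (n * n) = n * n ^ 3 := by ring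
    rw [h3, h4]
    exact Nat.mul_lt_mul_of_pos_right (by omega) (by positivity)
  obtain ⟨F, hF, hF0⟩ := exists_relation_blk (k := k) R b hcard
    (fun e => MvPolynomial.monomial (oth n e.1) 1) l
  -- the function on the chart
  let f : AR k b := MvPolynomial.aeval
    (fun e => (uc k b).q (MvPolynomial.monomial (oth n e.1) 1) (l e)) F
  have hf : ∀ c : Chart k b k, clf c f =
      MvPolynomial.eval (fun e => c.q (MvPolynomial.monomial (oth n e.1) 1) (l e)) F := by
    intro c
    simp only [f]
    rw [MvPolynomial.comp_aeval_apply, MvPolynomial.aeval_eq_eval]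
    congr 2
    ext e
    rw [← Chart.map_q, uc_map_clf]
  have hzero : ∀ c : Chart k b k, clf c f = 0 := by
    intro c
    by_contra h
    obtain ⟨c', hc', hB⟩ := hdense f c h
    exact hc' ((hf c').trans (hF0 c' hB))
  apply hF
  apply MvPolynomial.funext
  intro t
  rw [map_zero]
  let D : (Fin 3 →₀ ℕ) → (Fin 3 →₀ ℕ) → k := fun p q =>
    if h : ∃ e : (Fin n × Fin n) × (Fin n × Fin n), oth n e.1 = p ∧ bet n e.2 = q
    then t h.choose else 0
  have hD : ∀ e, D (oth n e.1) (bet n e.2) = t e := by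
    intro e
    have hex : ∃ e' : (Fin n × Fin n) × (Fin n × Fin n), oth n e'.1 = oth n e.1 ∧
      bet n e'.2 = bet n e.2 := ⟨e, rfl, rfl⟩
    simp only [D]
    rw [dif_pos hex]
    congr 1
    exact Prod.ext (oth_injective n hex.choose_spec.1) (bet_injective n hex.choose_spec.2)
  obtain ⟨c, hc⟩ := exists_family (k := k) (3 * n) ex hexinj
    (fun e he => ⟨eqv ⟨e, mem_JJ_of_degree_lt he⟩, by simp only [ex, Equiv.symm_apply_apply]⟩)
    (fun i => degree_le_of_mem_JJ (eqv.symm i).2) D
  have h1 := hzero c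
  rw [hf] at h1
  rw [← h1]
  congr 2
  ext e
  rw [hc (oth n e.1) (degree_oth _) _ (l e), hl, hD]
  · rw [hl, degree_bet]
  · intro i hi
    exact oth_notMem e.1 (hi ▸ (eqv.symm i).2)

end Main

end Pool.Agent.X320
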