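import Mathlib
import Pool.Agent.X320.Main
import Pool.Agent.Helper413.Gal.Uniq

set_option autoImplicit false

open scoped TensorProduct
open CategoryTheory AlgebraicGeometry

universe u

namespace Pool.Agent.X320

open Pool.Agent.Helper226 Pool.Agent.Helper413.Gal

/-- The subset `C` of the Hilbert scheme of `r` points of affine `n`-space is an elementary
irreducible component: it is an irreducible component, and it has a nonempty relatively open subset
all of whose `k`-points correspond to subschemes supported at exactly one point. -/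
def IsElementary {k : Type u} [Field k] {n r : ℕ}
    (𝓗 : HilbertScheme k (MvPolynomial (Fin n) k) r) (C : Set 𝓗.H) : Prop :=
  C ∈ irreducibleComponents 𝓗.H ∧
  ∃ O : Set 𝓗.H, IsOpen O ∧ (C ∩ O).Nonempty ∧
    ∀ f : PointsOver k 𝓗.H 𝓗.s k, Set.range f.1 ⊆ C ∩ O →
      ∃! a : Fin n → k, ∀ g ∈ 𝓗.idealOf f, MvPolynomial.eval a g = 0

section

variable {k : Type u} [Field k] {n r : ℕ}

lemma exists_elementary_hilb {b : Fin r → MvPolynomial (Fin n) k} {f : AR k b} {c : Chart k b k}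
    (hc : clf c f ≠ 0) (h : ∀ c' : Chart k b k, clf c' f ≠ 0 → OnePt c'.ker) :
    ∃ C, IsElementary (hilb k (MvPolynomial (Fin n) k) r) C := by
  let ψ := chartι k (Idx.single b)
  let x : HilbS k (MvPolynomial (Fin n) k) r := ψ (zp c)
  let D : Set (Spec (CommRingCat.of (AR k b))) := (PrimeSpectrum.basicOpen f : Set (PrimeSpectrum (AR k b)))
  have hD : IsOpen D := (PrimeSpectrum.basicOpen f).2
  refine ⟨irreducibleComponent x, irreducibleComponent_mem_irreducibleComponents x,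
    ψ '' D, ψ.isOpenEmbedding.isOpenMap _ hD, ⟨x, mem_irreducibleComponent, zp c, ?_, rfl⟩, ?_⟩
  · exact hc
  · intro p hp
    obtain ⟨y, hy⟩ : (Set.range p.1).Nonempty :=
      ⟨_, ⟨(⟨⊥, Ideal.isPrime_bot⟩ : PrimeSpectrum k), rfl⟩⟩
    obtain ⟨o, ho, hoy⟩ := (hp hy).2
    have hmem : ψ o ∈ (hilb k (MvPolynomial (Fin n) k) r).locus
        (fun I => I = (hilb k (MvPolynomial (Fin n) k) r).idealOf p) :=
      ⟨p, by rw [hoy]; exact hy, rfl⟩
    obtain ⟨c', hc', hoz⟩ := exists_chart_in _ o hmem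
    have h1 : OnePt c'.ker := by
      apply h
      rw [hoz] at ho
      exact ho
    rw [← hc']
    exact h1

lemma idealOf_tr (𝓗₁ 𝓗₂ : HilbertScheme k (MvPolynomial (Fin n) k) r)
    (f : PointsOver k 𝓗₁.H 𝓗₁.s k) : 𝓗₂.idealOf (tr 𝓗₁ 𝓗₂ k f) = 𝓗₁.idealOf f := by
  unfold HilbertScheme.idealOf
  rw [Φ_tr]

lemma isElementary_transfer (𝓗₁ 𝓗₂ : HilbertScheme k (MvPolynomial (Fin n) k) r)
    {C : Set 𝓗₁.H} (hC : IsElementary 𝓗₁ C) : IsElementary 𝓗₂ (tmor 𝓗₂ 𝓗₁ ⁻¹' C) := by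
  obtain ⟨h1, O, hO, hne, hall⟩ := hC
  have hsurj : Function.Surjective (tmor 𝓗₂ 𝓗₁) := by
    intro x
    refine ⟨tmor 𝓗₁ 𝓗₂ x, ?_⟩
    rw [← Scheme.Hom.comp_apply, tmor_tmor]
    rfl
  obtain ⟨x, hx⟩ := hne
  obtain ⟨y, rfl⟩ := hsurj x
  refine ⟨?_, tmor 𝓗₂ 𝓗₁ ⁻¹' O, ?_, ⟨y, hx⟩, ?_⟩
  · exact preimage_mem_irreducibleComponents h1 (tmor 𝓗₂ 𝓗₁).isOpenEmbedding
      ⟨_, hx.1, ⟨y, rfl⟩⟩
  · exact hO.preimage (tmor 𝓗₂ 𝓗₁).continuous
  · intro f hf
    have h2 := hall (tr 𝓗₂ 𝓗₁ k f) (by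
      rw [tr_val]
      rintro _ ⟨z, rfl⟩
      rw [Scheme.Hom.comp_apply]
      exact hf ⟨z, rfl⟩)
    rwa [idealOf_tr] at h2

end

/-- For every `R` there is a length `r` between `R + 1` and `28 (84 R + 29) ^ 3` such that the
Hilbert scheme of `r` points of affine `3`-space has an elementary component. -/
theorem exists_elementary (k : Type u) [Field k] [IsAlgClosed k] (R : ℕ) :
    ∃ r : ℕ, R < r ∧ r ≤ 28 * (84 * R + 29) ^ 3 ∧
      ∀ 𝓗 : HilbertScheme k (MvPolynomial (Fin 3) k) r, ∃ C, IsElementary 𝓗 C := by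
  obtain ⟨r, h1, h2, b, f, c, hc, h⟩ := exists_open_onePt k R
  obtain ⟨C, hC⟩ := exists_elementary_hilb hc h
  exact ⟨r, h1, h2, fun 𝓗 => ⟨_, isElementary_transfer _ 𝓗 hC⟩⟩

end Pool.Agent.X320
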